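import Pool.Agent.H154Z.QRealExist

set_option autoImplicit false

namespace Pool.Agent.Results.MP_b13893_an.ARadiusAllReals

open Pool.Agent.H154Z.QReal

/-- The family of `q`-deformed real numbers exists, and for every real `x` the series `[x]_q` has
radius of convergence at least `(3 - √5) / 2`; it even converges absolutely on the circle of that
radius. -/
theorem result : (∃ Q : ℝ → LaurentSeries ℚ, IsQReal Q) ∧
    ∀ Q : ℝ → LaurentSeries ℚ, IsQReal Q → ∀ x : ℝ,
      ENNReal.ofReal ((3 - √5) / 2) ≤ radius (Q x) ∧
      Summable fun k : ℕ => |(((Q x).coeff (k : ℤ) : ℚ) : ℝ)| * ((3 - √5) / 2) ^ k :=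
  main

end Pool.Agent.Results.MP_b13893_an.ARadiusAllReals
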